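import Mathlib

set_option autoImplicit false
open Filter

namespace Pool.Agent.Results.MP_40378c_al.Full

variable {V V' : Type}

/-- the `r`-neighbourhood of a vertex set -/
def Nb (G : SimpleGraph V) (r : ℕ) (K : Set V) : Set V := {x | ∃ k ∈ K, G.dist x k ≤ r}

/-- a ray: an injective sequence of consecutively adjacent vertices -/
def IsRay (G : SimpleGraph V) (p : ℕ → V) : Prop :=
  Function.Injective p ∧ ∀ n, G.Adj (p n) (p (n + 1))

/-- two rays belong to the same end: no finite vertex set separates their tails -/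
def SameEnd (G : SimpleGraph V) (p q : ℕ → V) : Prop :=
  ∀ K : Set V, K.Finite → ∃ n m, (∀ i, n ≤ i → p i ∉ K) ∧ (∀ j, m ≤ j → q j ∉ K) ∧
    ∃ w : G.Walk (p n) (q m), ∀ x ∈ w.support, x ∉ K

/-- c-connected vertex sets -/
def CConn (G : SimpleGraph V) (F : Set V) : Prop :=
  (G.induce F).Connected ∧ (G.induce Fᶜ).Connected ∧
    ¬ ∃ p q, IsRay G p ∧ IsRay G q ∧ (∀ n, p n ∈ F) ∧ (∀ n, q n ∉ F) ∧ SameEnd G p q

/-- connected boundaries: `CB_r` for some `r` -/
def HasCB (G : SimpleGraph V) : Prop :=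
  ∃ r, ∀ F, CConn G F → (G.induce (Nb G (r + 1) F \ F)).Connected

/-- quasi-isometric graphs -/
def QI (G : SimpleGraph V) (G' : SimpleGraph V') : Prop :=
  ∃ (f : V → V') (K C : ℝ), 1 ≤ K ∧ 0 ≤ C ∧
    (∀ x y, K⁻¹ * G.dist x y - C ≤ G'.dist (f x) (f y) ∧
      (G'.dist (f x) (f y) : ℝ) ≤ K * G.dist x y + C) ∧
    ∀ z, ∃ x, (G'.dist (f x) z : ℝ) ≤ C

/-- bi-Lipschitz equivalent graphs -/
def BiLip (G : SimpleGraph V) (G' : SimpleGraph V') : Prop :=
  ∃ (f : V ≃ V') (K : ℝ), 1 ≤ K ∧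
    ∀ x y, K⁻¹ * G.dist x y ≤ G'.dist (f x) (f y) ∧ (G'.dist (f x) (f y) : ℝ) ≤ K * G.dist x y

def Conn (G : SimpleGraph V) (A : Set V) : V → V → Prop :=
  Relation.ReflTransGen fun a b => G.Adj a b ∧ a ∈ A ∧ b ∈ A

variable {G : SimpleGraph V}

lemma Conn.symm {A : Set V} {x y : V} (h : Conn G A x y) : Conn G A y x := by
  induction h with
  | refl => exact .refl
  | tail _ h ih => exact .head ⟨h.1.symm, h.2.2, h.2.1⟩ ih

lemma Conn.mono {A B : Set V} {x y : V} (h : Conn G A x y) (hAB : A ⊆ B) : Conn G B x y := by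
  induction h with
  | refl => exact .refl
  | tail _ h ih => exact .tail ih ⟨h.1, hAB h.2.1, hAB h.2.2⟩

lemma lift' {α β : Type} {r : α → α → Prop} {s : β → β → Prop} (f : α → β)
    (h : ∀ a b, r a b → s (f a) (f b)) {a b : α} (hab : Relation.ReflTransGen r a b) :
    Relation.ReflTransGen s (f a) (f b) := by
  induction hab with
  | refl => exact .refl
  | tail _ h' ih => exact .tail ih (h _ _ h')

lemma Conn.mem {A : Set V} {x y : V} (h : Conn G A x y) (hx : x ∈ A) : y ∈ A := by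
  induction h with
  | refl => exact hx
  | tail _ h _ => exact h.2.2

def Cn (G : SimpleGraph V) (A : Set V) : Prop := A.Nonempty ∧ ∀ x ∈ A, ∀ y ∈ A, Conn G A x y

lemma conn_iff (A : Set V) : (G.induce A).Connected ↔ Cn G A := by
  rw [SimpleGraph.connected_iff, and_comm]
  refine and_congr Set.nonempty_coe_sort ⟨fun h x hx y hy => ?_, fun h x y => ?_⟩
  · have := (SimpleGraph.reachable_iff_reflTransGen _ _).1 (h ⟨x, hx⟩ ⟨y, hy⟩)
    exact lift' (s := fun a b => G.Adj a b ∧ a ∈ A ∧ b ∈ A) Subtype.val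
      (fun a b h => ⟨h, a.2, b.2⟩) this
  · obtain ⟨x, hx⟩ := x
    obtain ⟨y, hy⟩ := y
    have := h x hx y hy
    induction this with
    | refl => rfl
    | tail h1 h2 ih => exact (ih h2.2.1).trans (SimpleGraph.Adj.reachable h2.1)

lemma walk_iff (A : Set V) {x y : V} (hx : x ∈ A) :
    Conn G A x y ↔ ∃ w : G.Walk x y, ∀ z ∈ w.support, z ∈ A := by
  constructor
  · intro h
    induction h with
    | refl => exact ⟨.nil, by simpa using hx⟩
    | tail _ h ih =>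
      obtain ⟨w, hw⟩ := ih
      refine ⟨w.concat h.1, fun z hz => ?_⟩
      rw [SimpleGraph.Walk.support_concat] at hz
      simp only [List.mem_append, List.mem_singleton] at hz
      rcases hz with hz | rfl
      exacts [hw z hz, h.2.2]
  · rintro ⟨w, hw⟩
    induction w with
    | nil => exact .refl
    | cons h w ih =>
      have h1 := hw _ (List.mem_cons_of_mem _ w.start_mem_support)
      exact .head ⟨h, hx, h1⟩ (ih h1 fun z hz => hw z (List.mem_cons_of_mem _ hz))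

lemma dist_step (hG : G.Connected) {x y : V} {n : ℕ} (h : G.dist x y = n + 1) :
    ∃ z, G.Adj x z ∧ G.dist z y = n := by
  obtain ⟨p, hp⟩ := hG.exists_walk_length_eq_dist x y
  cases p with
  | nil => simp at h
  | cons a q =>
    refine ⟨_, a, ?_⟩
    have h1 := SimpleGraph.dist_le q
    have h2 := hG.dist_triangle (u := x) (v := q.getVert 0) (w := y)
    rw [SimpleGraph.Walk.getVert_zero, SimpleGraph.dist_eq_one_iff_adj.2 a] at h2
    rw [SimpleGraph.Walk.length_cons] at hp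
    omega

lemma adj_dist (hG : G.Connected) {x z : V} (h : G.Adj x z) (y : V) :
    G.dist x y ≤ G.dist z y + 1 := by
  have := hG.dist_triangle (u := x) (v := z) (w := y)
  rw [SimpleGraph.dist_eq_one_iff_adj.2 h] at this
  omega

/-- geodesics stay in balls -/
lemma conn_ball (hG : G.Connected) (y : V) (A : Set V) (n : ℕ) : ∀ x, G.dist x y = n →
    (∀ z, G.dist z y ≤ n → G.dist x z ≤ n → z ∈ A) → Conn G A x y := by
  induction n with
  | zero => intro x h _; rw [hG.dist_eq_zero_iff.1 h]; exact .refl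
  | succ n ih =>
    intro x h hA
    obtain ⟨z, h1, h2⟩ := dist_step hG h
    refine .head ⟨h1, hA x h.le (by simp), hA z (by omega) ?_⟩ (ih z h2 fun t a b => hA t (by omega) ?_)
    · rw [SimpleGraph.dist_eq_one_iff_adj.2 h1]; omega
    · have := adj_dist hG h1 t; omega

def bd (G : SimpleGraph V) (F : Set V) : Set (V × V) := {p | G.Adj p.1 p.2 ∧ p.1 ∈ F ∧ p.2 ∉ F}

lemma to_bd (hG : G.Connected) (F : Set V) {k : V} (hk : k ∈ F) (n : ℕ) : ∀ z, z ∉ F →
    G.dist z k = n → ∃ p ∈ bd G F, G.dist z p.2 + 1 ≤ n ∧ Conn G (Nb G n F \ F) z p.2 := by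
  induction n with
  | zero => intro z hz h; exact absurd (hG.dist_eq_zero_iff.1 h ▸ hk) hz
  | succ n ih =>
    intro z hz h
    obtain ⟨t, h1, h2⟩ := dist_step hG h
    by_cases ht : t ∈ F
    · exact ⟨(t, z), ⟨h1.symm, ht, hz⟩, by simp, .refl⟩
    · obtain ⟨p, a1, a2, a3⟩ := ih t ht h2
      refine ⟨p, a1, by have := adj_dist hG h1 p.2; omega, .head ⟨h1, ⟨⟨k, hk, h.le⟩, hz⟩,
        ⟨⟨k, hk, by omega⟩, ht⟩⟩ (a3.mono ?_)⟩
      rintro s ⟨⟨k', b1, b2⟩, b3⟩
      exact ⟨⟨k', b1, by omega⟩, b3⟩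

lemma ball_fin (hG : G.Connected) (hf : ∀ v, (G.neighborSet v).Finite) (y : V) (n : ℕ) :
    {x | G.dist x y ≤ n}.Finite := by
  induction n with
  | zero => exact (Set.finite_singleton y).subset fun x hx => hG.dist_eq_zero_iff.1 (Nat.le_zero.1 hx)
  | succ n ih =>
    refine (ih.union (ih.biUnion fun z _ => hf z)).subset fun x hx => ?_
    rcases Nat.eq_or_lt_of_le (show G.dist x y ≤ n + 1 from hx) with h | h
    · obtain ⟨z, h1, h2⟩ := dist_step hG h
      exact Or.inr (Set.mem_biUnion (show z ∈ {x | G.dist x y ≤ n} from h2.le) h1.symm)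
    · exact Or.inl (Nat.lt_succ_iff.1 h)

lemma darts_fin (hf : ∀ v, (G.neighborSet v).Finite) {A : Set V} (hA : A.Finite) :
    {p : V × V | G.Adj p.1 p.2 ∧ p.1 ∈ A}.Finite :=
  (hA.biUnion fun a _ => (hf a).image (Prod.mk a)).subset fun p hp =>
    Set.mem_biUnion hp.2 ⟨p.2, hp.1, rfl⟩

lemma comp (hG : G.Connected) {X : Set V} (hX : Cn G X) {v : V} (hv : v ∉ X) :
    Cn G {w | Conn G Xᶜ v w} ∧ Cn G {w | Conn G Xᶜ v w}ᶜ ∧
    ∀ p ∈ bd G {w | Conn G Xᶜ v w}, p.1 ∉ X ∧ p.2 ∈ X := by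
  have h1 : ∀ w, Conn G Xᶜ v w → Conn G {w | Conn G Xᶜ v w} v w := by
    intro w hw
    induction hw with
    | refl => exact .refl
    | tail a b ih => exact .tail ih ⟨b.1, a, .tail a b⟩
  have h2 : X ⊆ {w | Conn G Xᶜ v w}ᶜ := fun x hx h => Conn.mem h hv hx
  obtain ⟨u, hu⟩ := hX.1
  have h3 : ∀ w, w ∈ {w | Conn G Xᶜ v w}ᶜ → Conn G {w | Conn G Xᶜ v w}ᶜ w u := by
    intro w
    have := (SimpleGraph.reachable_iff_reflTransGen _ _).1 (hG w u)
    induction this using Relation.ReflTransGen.head_induction_on with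
    | refl => exact fun _ => .refl
    | @head a c h _ ih =>
      intro ha
      by_cases hx : a ∈ X
      · exact (hX.2 a hx u hu).mono h2
      · have : c ∈ {w | Conn G Xᶜ v w}ᶜ := fun hc => ha (.tail hc ⟨h.symm, Conn.mem hc hv, hx⟩)
        exact .head ⟨h, ha, this⟩ (ih this)
  refine ⟨⟨⟨v, .refl⟩, fun x hx y hy => (h1 x hx).symm.trans (h1 y hy)⟩,
    ⟨⟨u, h2 hu⟩, fun x hx y hy => (h3 x hx).trans (h3 y hy).symm⟩, fun p hp => ?_⟩
  have := Conn.mem hp.2.1 hv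
  refine ⟨this, ?_⟩
  by_contra h
  exact hp.2.2 (.tail hp.2.1 ⟨hp.1, this, h⟩)

def Close (G : SimpleGraph V) (l : ℕ) : Prop :=
  ∀ F, Cn G F → Cn G Fᶜ → (bd G F).Finite → ∀ A : Set (V × V), (∃ p ∈ bd G F, p ∈ A) →
    (∃ p ∈ bd G F, p ∉ A) → ∃ p ∈ bd G F, ∃ q ∈ bd G F, p ∈ A ∧ q ∉ A ∧ G.dist p.1 q.1 ≤ l

lemma cb_close (hG : G.Connected) (h : HasCB G) : ∃ l, Close G l := by
  obtain ⟨r, h⟩ := h
  refine ⟨2 * r + 3, fun F h1 h2 h3 A ⟨p0, a1, a2⟩ ⟨q0, b1, b2⟩ => ?_⟩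
  have hc := (conn_iff _).1 (h F ⟨(conn_iff _).2 h1, (conn_iff _).2 h2, ?_⟩)
  swap
  · rintro ⟨p, q, -, -, c1, c2, c3⟩
    obtain ⟨n, m, d1, -, d3⟩ := c3 _ (h3.image Prod.fst)
    have d4 := (walk_iff (Prod.fst '' bd G F)ᶜ (d1 n le_rfl)).2 d3
    have : ∀ z, Conn G (Prod.fst '' bd G F)ᶜ (p n) z → z ∈ F := by
      intro z hz
      induction hz with
      | refl => exact c1 n
      | tail _ e ih => by_contra h; exact e.2.1 ⟨(_, _), ⟨e.1, ih, h⟩, rfl⟩
    exact c2 m (this _ d4)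
  have mem : ∀ p ∈ bd G F, p.2 ∈ Nb G (r + 1) F \ F := fun p hp =>
    ⟨⟨p.1, hp.2.1, by rw [SimpleGraph.dist_eq_one_iff_adj.2 hp.1.symm]; omega⟩, hp.2.2⟩
  by_contra hcon
  have far : ∀ p ∈ bd G F, ∀ q ∈ bd G F, p ∈ A → G.dist p.2 q.2 ≤ 2 * r + 1 → q ∈ A := by
    intro p hp q hq hA hd
    by_contra hq'
    refine hcon ⟨p, hp, q, hq, hA, hq', ?_⟩
    have e1 := adj_dist hG hp.1 q.1
    have e2 := adj_dist hG hq.1 p.2
    rw [SimpleGraph.dist_comm] at e2 hd
    omega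
  have : ∀ z, Conn G (Nb G (r + 1) F \ F) p0.2 z → ∃ p ∈ bd G F, p ∈ A ∧ G.dist z p.2 ≤ r := by
    intro z hz
    induction hz with
    | refl => exact ⟨p0, a1, a2, by simp⟩
    | @tail s t _ e ih =>
      obtain ⟨p, c1, c2, c3⟩ := ih
      obtain ⟨⟨k, hk, hd⟩, ht⟩ := e.2.2
      obtain ⟨q, d1, d2, -⟩ := to_bd hG F hk _ t ht rfl
      refine ⟨q, d1, far p c1 q d1 c2 ?_, by omega⟩
      have e1 := hG.dist_triangle (u := p.2) (v := s) (w := q.2)
      have e2 := adj_dist hG e.1 q.2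
      rw [SimpleGraph.dist_comm] at c3
      omega
  obtain ⟨p, c1, c2, c3⟩ := this _ (hc.2 _ (mem p0 a1) _ (mem q0 b1))
  exact b2 (far p c1 q0 b1 c2 (by rw [SimpleGraph.dist_comm]; omega))

lemma ray (hf : ∀ v, (G.neighborSet v).Finite) {ι : Type} (U : Ultrafilter ι) {F : Set V}
    (hF : Cn G F) (x : ι → V) (hx : ∀ᶠ i in U, x i ∈ F)
    (hx' : ∀ K : Set V, K.Finite → ∀ᶠ i in U, x i ∉ K) :
    ∃ p, IsRay G p ∧ (∀ n, p n ∈ F) ∧ ∀ K : Set V, K.Finite → ∃ n, (∀ i, n ≤ i → p i ∉ K) ∧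
      ∀ᶠ i in U, Conn G Kᶜ (p n) (x i) := by
  classical
  obtain ⟨o, ho⟩ := hF.1
  let H := G.induce F
  have hc : H.Connected := (conn_iff F).2 hF
  have hf' : ∀ v, (H.neighborSet v).Finite := fun v =>
    (hf v.1).preimage Subtype.val_injective.injOn
  let y : ι → F := fun i => if h : x i ∈ F then ⟨x i, h⟩ else ⟨o, ho⟩
  have hy : ∀ᶠ i in U, (y i).1 = x i := hx.mono fun i hi => by simp [y, hi]
  have step : ∀ (n : ℕ) (a : F), H.dist a ⟨o, ho⟩ = n →
      (∀ᶠ i in U, H.dist (y i) ⟨o, ho⟩ = H.dist a (y i) + n) → ∃ b : F, H.Adj a b ∧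
      H.dist b ⟨o, ho⟩ = n + 1 ∧ ∀ᶠ i in U, H.dist (y i) ⟨o, ho⟩ = H.dist b (y i) + (n + 1) := by
    intro n a h1 h2
    have h3 : ∀ᶠ i in U, ∃ b ∈ H.neighborSet a, H.dist (y i) ⟨o, ho⟩ = H.dist b (y i) + (n + 1) := by
      filter_upwards [h2, hy, hx' _ (Set.finite_singleton a.1)] with i a1 a2 a3
      have : H.dist a (y i) ≠ 0 := fun e => a3 (by rw [← a2, ← hc.dist_eq_zero_iff.1 e]; rfl)
      obtain ⟨m, hm⟩ := Nat.exists_eq_succ_of_ne_zero this
      obtain ⟨b, b1, b2⟩ := dist_step hc hm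
      exact ⟨b, b1, by omega⟩
    obtain ⟨b, b1, b2⟩ := (Ultrafilter.eventually_exists_mem_iff (hf' a)).1 h3
    refine ⟨b, b1, ?_, b2⟩
    obtain ⟨i, hi⟩ := b2.exists
    have e1 := hc.dist_triangle (u := y i) (v := b) (w := ⟨o, ho⟩)
    have e2 := adj_dist hc (H.adj_symm b1) ⟨o, ho⟩
    rw [SimpleGraph.dist_comm (u := y i) (v := b)] at e1
    omega
  choose! nx n1 n2 n3 using step
  let p : ℕ → F := fun n => Nat.rec ⟨o, ho⟩ nx n
  have hp : ∀ n, H.dist (p n) ⟨o, ho⟩ = n ∧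
      ∀ᶠ i in U, H.dist (y i) ⟨o, ho⟩ = H.dist (p n) (y i) + n := by
    intro n
    induction n with
    | zero => exact ⟨by simp [p], Eventually.of_forall fun i => SimpleGraph.dist_comm⟩
    | succ n ih => exact ⟨n2 n _ ih.1 ih.2, n3 n _ ih.1 ih.2⟩
  refine ⟨fun n => (p n).1, ⟨fun i j e => ?_, fun n => n1 n _ (hp n).1 (hp n).2⟩, fun n => (p n).2,
    fun K hK => ?_⟩
  · rw [← (hp i).1, ← (hp j).1, Subtype.ext e]
  · obtain ⟨M, hM⟩ := ((hK.preimage (f := (Subtype.val : F → V)) Subtype.val_injective.injOn).image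
      fun a => H.dist a ⟨o, ho⟩).bddAbove
    have out : ∀ a : F, M + 1 ≤ H.dist a ⟨o, ho⟩ → a.1 ∉ K := fun a h e => by
      have := hM ⟨a, e, rfl⟩
      simp only at this; omega
    refine ⟨M + 1, fun i hi => out _ (by rw [(hp i).1]; exact hi), ?_⟩
    filter_upwards [(hp (M + 1)).2, hy] with i a1 a2
    rw [← a2]
    refine lift' (s := fun a b => G.Adj a b ∧ a ∈ Kᶜ ∧ b ∈ Kᶜ) Subtype.val
      (fun a b h => ⟨h.1, h.2.1, h.2.2⟩) (conn_ball hc (y i) {a | a.1 ∉ K} _ _ rfl fun z b1 _ => ?_)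
    have e1 := hc.dist_triangle (u := y i) (v := z) (w := ⟨o, ho⟩)
    rw [SimpleGraph.dist_comm (u := y i) (v := z)] at e1
    exact out z (by omega)

lemma bd_fin (hf : ∀ v, (G.neighborSet v).Finite) {F : Set V} (h : CConn G F) :
    (bd G F).Finite := by
  by_contra hinf
  have : (cofinite ⊓ 𝓟 (bd G F)).NeBot := cofinite_inf_principal_neBot_iff.2 hinf
  let U := Ultrafilter.of (cofinite ⊓ 𝓟 (bd G F))
  have u1 : ∀ᶠ p in U, p ∈ bd G F := (Ultrafilter.of_le _).trans inf_le_right (mem_principal_self _)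
  have u2 : ∀ A : Set (V × V), A.Finite → ∀ᶠ p in U, p ∉ A := fun A hA =>
    (Ultrafilter.of_le _).trans inf_le_left hA.compl_mem_cofinite
  obtain ⟨p, a1, a2, a3⟩ := ray hf U ((conn_iff _).1 h.1) Prod.fst (u1.mono fun p hp => hp.2.1)
    fun K hK => by
      filter_upwards [u1, u2 _ (darts_fin hf hK)] with p b1 b2 e using b2 ⟨b1.1, e⟩
  obtain ⟨q, c1, c2, c3⟩ := ray hf U ((conn_iff _).1 h.2.1) Prod.snd (u1.mono fun p hp => hp.2.2)
    fun K hK => by
      filter_upwards [u1, u2 _ ((darts_fin hf hK).image Prod.swap)] with p b1 b2 e using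
        b2 ⟨p.swap, ⟨b1.1.symm, e⟩, rfl⟩
  refine h.2.2 ⟨p, q, a1, c1, a2, c2, fun K hK => ?_⟩
  obtain ⟨n, d1, d2⟩ := a3 K hK
  obtain ⟨m, d3, d4⟩ := c3 K hK
  obtain ⟨e, e1, e2, e3⟩ := (u1.and (d2.and d4)).exists
  exact ⟨n, m, d1, d3, (walk_iff Kᶜ (d1 n le_rfl)).1 ((Relation.ReflTransGen.tail e2
    ⟨e1.1, e2.mem (d1 n le_rfl), e3.mem (d3 m le_rfl)⟩).trans e3.symm)⟩

lemma close_cb (hG : G.Connected) (hf : ∀ v, (G.neighborSet v).Finite) {l : ℕ} (h : Close G l) :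
    HasCB G := by
  refine ⟨2 * l + 1, fun F hF => (conn_iff _).2 ?_⟩
  have hb := bd_fin hf hF
  have h1 := (conn_iff _).1 hF.1
  have h2 := (conn_iff _).1 hF.2.1
  set D := Nb G (2 * l + 1 + 1) F \ F with hD
  set X := Nb G (l + 1) F with hX
  have self : ∀ n, F ⊆ Nb G n F := fun n k hk => ⟨k, hk, by simp⟩
  have cX : Cn G X := by
    have : ∀ x ∈ X, ∃ k ∈ F, Conn G X x k := by
      rintro x ⟨k, hk, hd⟩
      exact ⟨k, hk, conn_ball hG k X _ x rfl fun z a _ => ⟨k, hk, a.trans hd⟩⟩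
    refine ⟨h1.1.mono (self _), fun x hx y hy => ?_⟩
    obtain ⟨k, a1, a2⟩ := this x hx
    obtain ⟨k', b1, b2⟩ := this y hy
    exact (a2.trans ((h1.2 k a1 k' b1).mono (self _))).trans b2.symm
  have nb : ∀ a b, G.Adj a b → b ∈ X → ∃ k ∈ F, G.dist a k ≤ l + 2 := by
    rintro a b hab ⟨k, hk, hd⟩
    exact ⟨k, hk, by have := adj_dist hG hab k; omega⟩
  have inD : ∀ a b, G.Adj a b → b ∈ X → a ∉ F → a ∈ D := fun a b hab hb ha => by
    obtain ⟨k, hk, hd⟩ := nb a b hab hb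
    exact ⟨⟨k, hk, by omega⟩, ha⟩
  have XD : ∀ a ∈ X, a ∉ F → a ∈ D := by
    rintro a ⟨k, hk, hd⟩ ha
    exact ⟨⟨k, hk, by omega⟩, ha⟩
  have W : ∀ v, v ∉ X → ∀ p ∈ bd G {w | Conn G Xᶜ v w}, ∀ q ∈ bd G {w | Conn G Xᶜ v w},
      Conn G D p.1 q.1 := by
    intro v hv p0 hp0 q0 hq0
    obtain ⟨c1, c2, c3⟩ := comp hG cX hv
    by_contra hcon
    obtain ⟨p, a1, q, a2, a3, a4, a5⟩ := h _ c1 c2 ((darts_fin hf (hb.biUnion fun e _ =>
      ball_fin hG hf e.2 (l + 2))).subset fun p hp => ⟨hp.1, by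
        obtain ⟨k, hk, hd⟩ := nb _ _ hp.1 (c3 p hp).2
        obtain ⟨e, e1, e2, -⟩ := to_bd hG F hk _ p.1 (fun e => (c3 p hp).1 (self _ e)) rfl
        exact Set.mem_biUnion e1 (show G.dist p.1 e.2 ≤ l + 2 by omega)⟩)
      {q | Conn G D p0.1 q.1} ⟨p0, hp0, .refl⟩ ⟨q0, hq0, hcon⟩
    refine a4 (Relation.ReflTransGen.trans a3 (conn_ball hG _ D _ _ rfl fun z b1 b2 => ?_))
    obtain ⟨k, hk, hd⟩ := nb _ _ a2.1 (c3 q a2).2
    refine ⟨⟨k, hk, ?_⟩, fun e => (c3 p a1).1 ⟨z, e, by omega⟩⟩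
    have := hG.dist_triangle (u := z) (v := q.1) (w := k)
    omega
  have toX : ∀ a ∈ D, ∃ y ∈ X, y ∉ F ∧ Conn G D a y := by
    rintro a ⟨⟨k, hk, hd⟩, ha⟩
    obtain ⟨e, e1, -, e3⟩ := to_bd hG F hk _ a ha rfl
    refine ⟨e.2, ⟨e.1, e1.2.1, by rw [SimpleGraph.dist_eq_one_iff_adj.2 e1.1.symm]; omega⟩, e1.2.2,
      e3.mono ?_⟩
    rintro s ⟨⟨k', b1, b2⟩, b3⟩
    exact ⟨⟨k', b1, by omega⟩, b3⟩
  have main : ∀ a ∈ X, ∀ z, Conn G Fᶜ a z → (z ∈ X ∧ Conn G D a z) ∨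
      (z ∉ X ∧ ∀ p ∈ bd G {w | Conn G Xᶜ z w}, Conn G D a p.1) := by
    intro a ha z hz
    induction hz with
    | refl => exact Or.inl ⟨ha, .refl⟩
    | @tail s t _ e ih =>
      by_cases ht : t ∈ X
      · refine Or.inl ⟨ht, ?_⟩
        rcases ih with ⟨b1, b2⟩ | ⟨b1, b2⟩
        · exact .tail b2 ⟨e.1, XD s b1 e.2.1, XD t ht e.2.2⟩
        · exact .tail (b2 (s, t) ⟨e.1, .refl, fun c => Conn.mem c b1 ht⟩)
            ⟨e.1, inD s t e.1 ht e.2.1, XD t ht e.2.2⟩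
      · refine Or.inr ⟨ht, fun p hp => ?_⟩
        rcases ih with ⟨b1, b2⟩ | ⟨b1, b2⟩
        · exact (Relation.ReflTransGen.tail b2 ⟨e.1, XD s b1 e.2.1, inD t s e.1.symm b1 e.2.2⟩).trans
            (W t ht (t, s) ⟨e.1.symm, .refl, fun c => Conn.mem c ht b1⟩ p hp)
        · exact b2 p ⟨hp.1, .head ⟨e.1, b1, ht⟩ hp.2.1, fun c => hp.2.2 (.head ⟨e.1.symm, ht, b1⟩ c)⟩
  constructor
  · obtain ⟨k, hk⟩ := h1.1
    obtain ⟨z, hz⟩ := h2.1
    obtain ⟨e, e1, -, -⟩ := to_bd hG F hk _ z hz rfl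
    exact ⟨e.2, inD e.2 e.1 e1.1.symm (self _ e1.2.1) e1.2.2⟩
  · intro a ha b hb
    obtain ⟨y, a1, a2, a3⟩ := toX a ha
    obtain ⟨y', b1, b2, b3⟩ := toX b hb
    rcases main y a1 y' (h2.2 y a2 y' b2) with ⟨-, c⟩ | ⟨c, -⟩
    · exact (a3.trans c).trans b3.symm
    · exact absurd b1 c

lemma potential (hG : G.Connected) {l : ℕ} (h : Close G l) (F : Set V) (hb : (bd G F).Finite)
    (β : V × V → ZMod 2) (hβ : ∀ p ∈ bd G F, ∀ q ∈ bd G F, G.dist p.1 q.1 ≤ l + 2 → β p = β q) :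
    ∃ φ : V → ZMod 2, (∀ u v, G.Adj u v → (u ∈ F ↔ v ∈ F) → φ u + φ v = 0) ∧
      ∀ p ∈ bd G F, φ p.1 + φ p.2 = β p := by
  classical
  let X : V → Set V := fun u => {w | Conn G F u w}
  let Y : V × V → Set V := fun p => {w | Conn G (X p.1)ᶜ p.2 w}
  have cX : ∀ u, Cn G (X u) := fun u => by
    have : ∀ w, Conn G F u w → Conn G (X u) u w := by
      intro w hw
      induction hw with
      | refl => exact .refl
      | tail a b ih => exact .tail ih ⟨b.1, a, .tail a b⟩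
    exact ⟨⟨u, .refl⟩, fun x hx y hy => (this x hx).symm.trans (this y hy)⟩
  have nX : ∀ p ∈ bd G F, p.2 ∉ X p.1 := fun p hp e => hp.2.2 (Conn.mem e hp.2.1)
  have key : ∀ p ∈ bd G F, ∀ q ∈ bd G (Y p), q.swap ∈ bd G F ∧ Y q.swap = Y p := by
    intro p hp q hq
    obtain ⟨a1, a2⟩ := (comp hG (cX p.1) (nX p hp)).2.2 q hq
    have a3 := Conn.mem a2 hp.2.1
    refine ⟨⟨hq.1.symm, a3, fun e => a1 (.tail a2 ⟨hq.1.symm, a3, e⟩)⟩, ?_⟩
    have e : X q.2 = X p.1 := Set.ext fun w => ⟨fun c => Relation.ReflTransGen.trans a2 c,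
      fun c => (Conn.symm a2).trans c⟩
    ext w
    simp only [Y, Prod.fst_swap, Prod.snd_swap, e, Set.mem_ofPred_eq]
    exact ⟨fun c => Relation.ReflTransGen.trans hq.2.1 c, fun c => (Conn.symm hq.2.1).trans c⟩
  have own : ∀ p ∈ bd G F, p.swap ∈ bd G (Y p) := fun p hp =>
    ⟨hp.1.symm, .refl, fun c => Conn.mem c (nX p hp) .refl⟩
  have same : ∀ p ∈ bd G F, ∀ q ∈ bd G F, Y p = Y q → β p = β q := by
    intro p hp q hq e
    by_contra hne
    obtain ⟨c1, c2, -⟩ := comp hG (cX p.1) (nX p hp)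
    obtain ⟨s, a1, t, a2, a3, a4, a5⟩ := h (Y p) c1 c2 ((hb.image Prod.swap).subset fun s hs =>
      ⟨s.swap, (key p hp s hs).1, rfl⟩) {s | β s.swap = β p} ⟨_, own p hp, rfl⟩
      ⟨_, e ▸ own q hq, fun c => hne (Eq.symm c)⟩
    refine a4 (Eq.trans (hβ _ (key p hp s a1).1 _ (key p hp t a2).1 ?_).symm a3)
    have e1 := adj_dist hG a1.1.symm t.2
    have e2 := adj_dist hG a2.1.symm s.1
    rw [SimpleGraph.dist_comm] at e2 a5
    simp only [Prod.fst_swap]
    omega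
  let B : Finset (Set V) := (hb.toFinset.filter fun p => β p = 1).image Y
  have hB : ∀ T ∈ B, ∃ p ∈ bd G F, β p = 1 ∧ Y p = T := fun T hT => by
    obtain ⟨p, a, b⟩ := Finset.mem_image.1 hT
    rw [Finset.mem_filter, Set.Finite.mem_toFinset] at a
    exact ⟨p, a.1, a.2, b⟩
  have eq0 : ∀ (T : Set V) u v, (u ∈ T ↔ v ∈ T) →
      (if u ∈ T then (1 : ZMod 2) else 0) + (if v ∈ T then 1 else 0) = 0 := fun T u v e => by
    simp only [e]; exact CharTwo.add_self_eq_zero _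
  refine ⟨fun w => ∑ T ∈ B, if w ∈ T then 1 else 0, fun u v huv e => ?_, fun p hp => ?_⟩
  · rw [← Finset.sum_add_distrib]
    refine Finset.sum_eq_zero fun T hT => eq0 T u v ?_
    obtain ⟨p, a1, -, rfl⟩ := hB T hT
    constructor <;> intro c <;> by_contra c'
    · have := (key p a1 (u, v) ⟨huv, c, c'⟩).1
      exact this.2.2 (e.2 this.2.1)
    · have := (key p a1 (v, u) ⟨huv.symm, c, c'⟩).1
      exact this.2.2 (e.1 this.2.1)
  · rw [← Finset.sum_add_distrib]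
    have other : ∀ T ∈ B, T ≠ Y p → (if p.1 ∈ T then (1 : ZMod 2) else 0) +
        (if p.2 ∈ T then 1 else 0) = 0 := by
      intro T hT hne
      refine eq0 T _ _ ?_
      obtain ⟨q, a1, -, rfl⟩ := hB T hT
      constructor <;> intro c <;> by_contra c'
      · exact hp.2.2 (key q a1 p ⟨hp.1, c, c'⟩).1.2.1
      · exact hne (key q a1 p.swap ⟨hp.1.symm, c, c'⟩).2.symm
    by_cases h1 : β p = 1
    · rw [Finset.sum_eq_single_of_mem (Y p) (Finset.mem_image_of_mem _ (by simp [hp, h1])) other,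
        if_neg (show p.1 ∉ Y p from (own p hp).2.2), if_pos (show p.2 ∈ Y p from (own p hp).2.1), h1,
        zero_add]
    · rw [Finset.sum_eq_zero fun T hT => other T hT ?_]
      · revert h1; generalize β p = t; revert t; decide
      · rintro rfl
        obtain ⟨q, a1, a2, a3⟩ := hB _ hT
        exact h1 (same q a1 p hp a3 ▸ a2)

lemma transfer {G' : SimpleGraph V'} (hG : G.Connected) (hG' : G'.Connected)
    (hf : ∀ v, (G.neighborSet v).Finite) (g : V → V') (M : ℕ)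
    (g1 : ∀ u v, G'.dist (g u) (g v) ≤ M * G.dist u v + M)
    (g2 : ∀ u v, G.dist u v ≤ M * G'.dist (g u) (g v) + M) (g3 : ∀ x, ∃ u, G'.dist (g u) x ≤ M)
    {l : ℕ} (h : Close G l) : ∃ l', Close G' l' := by
  classical
  choose f hf3 using g3
  obtain ⟨E, hE⟩ : ∃ E, E = M * (2 * M + 1) + M + l + 3 := ⟨_, rfl⟩
  obtain ⟨D, hD⟩ : ∃ D, D = M * E + 2 * M + 1 := ⟨_, rfl⟩
  refine ⟨6 * D + 1, fun F h1 h2 h3 A ⟨p0, a1, a2⟩ ⟨q0, b1, b2⟩ => ?_⟩
  by_contra hcon
  let χ : V' → ZMod 2 := fun x => if x ∈ F then 1 else 0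
  let α : V' → V' → ZMod 2 := fun x y =>
    if ∃ p ∈ bd G' F, p ∈ A ∧ G'.dist x p.1 ≤ 4 * D + 1 then χ x + χ y else 0
  have cross : ∀ x y, ¬ (x ∈ F ↔ y ∈ F) → ∃ p ∈ bd G' F, G'.dist x p.1 ≤ G'.dist x y := by
    intro x y hxy
    by_cases hx : x ∈ F
    · have hy : y ∉ F := fun e => hxy ⟨fun _ => e, fun _ => hx⟩
      obtain ⟨p, c1, c2, -⟩ := to_bd hG' Fᶜ (k := y) hy _ x (fun e => e hx) rfl
      exact ⟨p.swap, ⟨c1.1.symm, not_not.1 c1.2.2, c1.2.1⟩, by simp only [Prod.fst_swap]; omega⟩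
    · have hy : y ∈ F := by by_contra e; exact hxy ⟨fun c => absurd c hx, fun c => absurd c e⟩
      obtain ⟨p, c1, c2, -⟩ := to_bd hG' F hy _ x hx rfl
      have := adj_dist hG' c1.1 x
      rw [SimpleGraph.dist_comm, SimpleGraph.dist_comm (u := p.2)] at this
      exact ⟨p, c1, by omega⟩
  have chi0 : ∀ x y, (x ∈ F ↔ y ∈ F) → χ x + χ y = 0 := fun x y e => by
    simp only [χ, e]; exact CharTwo.add_self_eq_zero _
  have cluster : ∀ x0, ∃ t : ZMod 2, ∀ x y, G'.dist x0 x ≤ D → G'.dist x0 y ≤ D →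
      α x y = t * (χ x + χ y) := by
    intro x0
    by_cases hc : ∃ p ∈ bd G' F, p ∈ A ∧ G'.dist x0 p.1 ≤ 3 * D
    · obtain ⟨p, c1, c2, c3⟩ := hc
      refine ⟨1, fun x y hx _ => ?_⟩
      have := hG'.dist_triangle (u := x) (v := x0) (w := p.1)
      rw [SimpleGraph.dist_comm] at hx
      rw [one_mul]
      exact if_pos ⟨p, c1, c2, by omega⟩
    · refine ⟨0, fun x y hx hy => ?_⟩
      rw [zero_mul]
      by_cases e : x ∈ F ↔ y ∈ F
      · simp [α, chi0 x y e]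
      refine if_neg ?_
      rintro ⟨p, c1, c2, c3⟩
      obtain ⟨q, d1, d2⟩ := cross x y e
      have e1 := hG'.dist_triangle (u := x) (v := x0) (w := y)
      have e2 := hG'.dist_triangle (u := x0) (v := x) (w := q.1)
      have e3 := hG'.dist_triangle (u := p.1) (v := x) (w := q.1)
      rw [SimpleGraph.dist_comm (u := x) (v := x0)] at e1
      rw [SimpleGraph.dist_comm] at c3
      exact hcon ⟨p, c1, q, d1, c2, fun c => hc ⟨q, d1, c, by omega⟩, by omega⟩
  have near : ∀ u v, G.dist u v ≤ E → G'.dist (g u) (g v) + M + 1 ≤ D := fun u v e => by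
    have := g1 u v
    have := Nat.mul_le_mul_left M e
    omega
  have one : ∀ {u v}, G.Adj u v → G.dist u v = 1 := SimpleGraph.dist_eq_one_iff_adj.2
  obtain ⟨φ, φ1, φ2⟩ := potential hG h (g ⁻¹' F) ((darts_fin hf (h3.biUnion fun e _ =>
    ball_fin hG hf (f e.1) (M * (D + M) + M))).subset fun p hp => ⟨hp.1, by
      obtain ⟨q, d1, d2⟩ := cross (g p.1) (g p.2) fun e => hp.2.2 (e.1 hp.2.1)
      refine Set.mem_biUnion d1 ((g2 _ _).trans (Nat.add_le_add_right (Nat.mul_le_mul_left _ ?_) _))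
      have e1 := hG'.dist_triangle (u := g p.1) (v := q.1) (w := g (f q.1))
      have e2 := hf3 q.1
      have e3 := near p.1 p.2 (by rw [one hp.1]; omega)
      rw [SimpleGraph.dist_comm] at e2
      omega⟩) (fun p => α (g p.1) (g p.2)) fun p hp q hq hd => by
      obtain ⟨t, ht⟩ := cluster (g p.1)
      have e1 := near p.1 p.2 (by rw [one hp.1]; omega)
      have e2 := near p.1 q.1 (by omega)
      have e3 := near p.1 q.2 (by
        have := adj_dist hG hq.1.symm p.1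
        rw [SimpleGraph.dist_comm, SimpleGraph.dist_comm (u := q.1)] at this; omega)
      rw [ht (g p.1) (g p.2) (by simp) (by omega), ht (g q.1) (g q.2) (by omega) (by omega)]
      have c1 : g p.1 ∈ F := hp.2.1
      have c2 : g p.2 ∉ F := hp.2.2
      have c3 : g q.1 ∈ F := hq.2.1
      have c4 : g q.2 ∉ F := hq.2.2
      simp [χ, c1, c2, c3, c4]
  have edge : ∀ x y, G'.Adj x y →
      (φ (f x) + α x (g (f x))) + (φ (f y) + α y (g (f y))) = α x y := by
    intro x y hxy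
    obtain ⟨t, ht⟩ := cluster (g (f x))
    have d1 : G'.dist (g (f x)) y ≤ M + 1 := by
      have := hG'.dist_triangle (u := g (f x)) (v := x) (w := y)
      rw [SimpleGraph.dist_eq_one_iff_adj.2 hxy] at this
      have := hf3 x; omega
    have d2 : G.dist (f x) (f y) ≤ E := by
      have e1 := hG'.dist_triangle (u := g (f x)) (v := y) (w := g (f y))
      have e2 := hf3 y
      rw [SimpleGraph.dist_comm] at e2
      have e3 := g2 (f x) (f y)
      have := Nat.mul_le_mul_left M (show G'.dist (g (f x)) (g (f y)) ≤ 2 * M + 1 by omega)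
      omega
    have c : ∀ z, Conn G {z | G.dist (f x) z ≤ E} (f x) z →
        φ z + t * χ (g z) = φ (f x) + t * χ (g (f x)) := by
      intro z hz
      induction hz with
      | refl => rfl
      | @tail u v _ e ih =>
        rw [← ih]
        have e1 := near _ _ e.2.1
        have e2 := near _ _ e.2.2
        have e3 : φ u + φ v = t * (χ (g u) + χ (g v)) := by
          by_cases hu : g u ∈ F <;> by_cases hv : g v ∈ F
          · rw [φ1 u v e.1 (iff_of_true hu hv), chi0 _ _ (iff_of_true hu hv), mul_zero]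
          · rw [φ2 (u, v) ⟨e.1, hu, hv⟩]; exact ht (g u) (g v) (by omega) (by omega)
          · rw [add_comm, φ2 (v, u) ⟨e.1.symm, hv, hu⟩, add_comm]
            exact ht (g v) (g u) (by omega) (by omega)
          · rw [φ1 u v e.1 (iff_of_false hu hv), chi0 _ _ (iff_of_false hu hv), mul_zero]
        revert e3
        generalize φ u = a; generalize φ v = b; generalize χ (g u) = c; generalize χ (g v) = d
        clear * -
        revert a b c d t; decide
    have c1 := c _ (conn_ball hG (f y) _ _ _ rfl fun z _ e => e.trans d2)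
    have d3 := near _ _ d2
    have d4 := hf3 x
    rw [ht x _ (by omega) (by simp), ht y _ (by omega) (by omega), ht x y (by omega) (by omega)]
    revert c1
    generalize φ (f x) = a; generalize φ (f y) = b; generalize χ (g (f x)) = c
    generalize χ (g (f y)) = d; generalize χ x = e; generalize χ y = e'
    clear * -
    revert a b c d e e' t; decide
  have const : ∀ (T : Set V'), (∀ x ∈ T, ∀ y ∈ T, (x ∈ F ↔ y ∈ F)) → ∀ x y, Conn G' T x y →
      φ (f x) + α x (g (f x)) = φ (f y) + α y (g (f y)) := by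
    intro T hT x y hxy
    induction hxy with
    | refl => rfl
    | @tail u v _ e ih =>
      have := edge u v e.1
      rw [show α u v = 0 by simp [α, chi0 u v (hT u e.2.1 v e.2.2)], ← ih] at this
      exact (CharTwo.add_eq_zero.1 this)
  have e1 := edge _ _ a1.1
  have e2 := edge _ _ b1.1
  rw [const F (fun x hx y hy => iff_of_true hx hy) _ _ (h1.2 _ a1.2.1 _ b1.2.1),
    const Fᶜ (fun x hx y hy => iff_of_false hx hy) _ _ (h2.2 _ a1.2.2 _ b1.2.2), e2] at e1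
  have e3 : α p0.1 p0.2 = 1 := by
    simp only [α]
    rw [if_pos ⟨p0, a1, a2, by simp⟩]
    simp [χ, a1.2.1, a1.2.2]
  have e4 : α q0.1 q0.2 = 0 := if_neg fun ⟨p, c1, c2, c3⟩ =>
    hcon ⟨p, c1, q0, b1, c2, b2, by rw [SimpleGraph.dist_comm]; omega⟩
  rw [e3, e4] at e1
  exact zero_ne_one e1

theorem main {V V' : Type} (G : SimpleGraph V) (G' : SimpleGraph V')
    (hG : G.Connected) (hG' : G'.Connected)
    (hf : ∀ v, (G.neighborSet v).Finite) (hf' : ∀ v, (G'.neighborSet v).Finite)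
    (hq : QI G G') (h : HasCB G) : HasCB G' := by
  obtain ⟨l, hl⟩ := cb_close hG h
  obtain ⟨g, K, C, hK, hC, h1, h2⟩ := hq
  obtain ⟨M, hM⟩ := exists_nat_ge (K + K * C)
  have k1 : K ≤ M := by nlinarith
  have k2 : C ≤ M := by nlinarith
  have k3 : K * C ≤ M := by linarith
  obtain ⟨l', hl'⟩ := transfer hG hG' hf g M (fun u v => by
    have : (G'.dist (g u) (g v) : ℝ) ≤ M * G.dist u v + M := (h1 u v).2.trans (by gcongr)
    exact_mod_cast this) (fun u v => by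
    have a := mul_le_mul_of_nonneg_left (h1 u v).1 (show 0 ≤ K by linarith)
    rw [mul_sub, mul_inv_cancel_left₀ (by linarith)] at a
    have b : K * G'.dist (g u) (g v) ≤ M * G'.dist (g u) (g v) := by gcongr
    have : (G.dist u v : ℝ) ≤ M * G'.dist (g u) (g v) + M := by linarith
    exact_mod_cast this) (fun x => by
    obtain ⟨u, hu⟩ := h2 x
    exact ⟨u, by exact_mod_cast hu.trans k2⟩) hl
  exact close_cb hG' hf' hl'

lemma bilip_qi {G' : SimpleGraph V'} (h : BiLip G G') : QI G G' := by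
  obtain ⟨f, K, hK, h⟩ := h
  exact ⟨f, K, 0, hK, le_rfl, by simpa using h, fun z => ⟨f.symm z, by simp⟩⟩

section
open SimpleGraph
variable {Γ : Type} [Group Γ]

def mulH (S : Set Γ) (d : Γ) : mulCayley S →g mulCayley S :=
  ⟨fun x => d * x, fun h => mulCayley_adj_mul_iff_right.2 h⟩

lemma cay_conn {S : Set Γ} (h : Subgroup.closure S = ⊤) : (mulCayley S).Connected := by
  have key : ∀ x, (mulCayley S).Reachable 1 x := by
    intro x
    have hx : x ∈ Subgroup.closure S := h ▸ Subgroup.mem_top x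
    induction hx using Subgroup.closure_induction with
    | mem s hs =>
      by_cases e : 1 = s
      · rw [← e]
      · exact Adj.reachable ((mulCayley_adj _ _ _).2 ⟨e, Or.inl (by simpa using hs)⟩)
    | one => rfl
    | mul a b _ _ ha hb => exact ha.trans (by simpa [mulH] using hb.map (mulH S a))
    | inv a _ ha => exact (by simpa [mulH] using ha.map (mulH S a⁻¹) : Reachable _ _ _).symm
  exact ⟨fun x y => (key x).symm.trans (key y)⟩

lemma cay_fin {S : Set Γ} (hS : S.Finite) (v : Γ) : ((mulCayley S).neighborSet v).Finite := by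
  refine ((hS.image fun s => v * s).union (hS.image fun s => v * s⁻¹)).subset fun w hw => ?_
  rcases ((mulCayley_adj _ _ _).1 hw).2 with h | h
  · exact Or.inl ⟨_, h, by simp⟩
  · exact Or.inr ⟨_, h, by simp⟩

lemma cay_inv {S : Set Γ} (h : Subgroup.closure S = ⊤) (d x y : Γ) :
    (mulCayley S).dist (d * x) (d * y) ≤ (mulCayley S).dist x y := by
  obtain ⟨p, hp⟩ := (cay_conn h).exists_walk_length_eq_dist x y
  simpa [hp, mulH] using dist_le (p.map (mulH S d))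

lemma cay_lip {S T : Set Γ} (hS : S.Finite) (h : Subgroup.closure S = ⊤)
    (h' : Subgroup.closure T = ⊤) : ∃ K : ℕ, ∀ x y,
      (mulCayley T).dist x y ≤ K * (mulCayley S).dist x y := by
  obtain ⟨K, hK⟩ := ((cay_fin hS 1).image ((mulCayley T).dist 1)).bddAbove
  refine ⟨K, fun x y => ?_⟩
  generalize hn : (mulCayley S).dist x y = n
  induction n generalizing x with
  | zero => simp [(cay_conn h).dist_eq_zero_iff.1 hn]
  | succ n ih =>
    obtain ⟨z, h1, h2⟩ := dist_step (cay_conn h) hn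
    have e1 := hK ⟨x⁻¹ * z, by simpa [mulH] using (mulH S x⁻¹).map_adj h1, rfl⟩
    have e2 := cay_inv h' x 1 (x⁻¹ * z)
    have e3 := (cay_conn h').dist_triangle (u := x) (v := z) (w := y)
    have e4 := ih z h2
    simp only [mul_one, mul_inv_cancel_left] at e2
    rw [Nat.mul_succ]; omega

theorem result :
    (∀ (V V' : Type) (G : SimpleGraph V) (G' : SimpleGraph V'), G.Connected → G'.Connected →
      (∀ v, (G.neighborSet v).Finite) → (∀ v, (G'.neighborSet v).Finite) →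
      QI G G' → HasCB G → HasCB G') ∧
    (∀ (Γ : Type) [Group Γ] (S T : Set Γ), S.Finite → T.Finite → Subgroup.closure S = ⊤ →
      Subgroup.closure T = ⊤ → HasCB (mulCayley S) → HasCB (mulCayley T)) ∧
    (∀ (Γ Δ : Type) [Group Γ] [Group Δ] (S : Set Γ) (T : Set Δ), S.Finite → T.Finite →
      Subgroup.closure S = ⊤ → Subgroup.closure T = ⊤ →
      BiLip (mulCayley S) (mulCayley T) ∨ QI (mulCayley S) (mulCayley T) →
      HasCB (mulCayley S) → HasCB (mulCayley T)) := by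
  refine ⟨fun _ _ => main, fun Γ _ S T hS hT h h' => main _ _ (cay_conn h) (cay_conn h') (cay_fin hS)
    (cay_fin hT) (bilip_qi ?_), fun Γ Δ _ _ S T hS hT h h' hq => main _ _ (cay_conn h) (cay_conn h')
    (cay_fin hS) (cay_fin hT) (hq.elim bilip_qi id)⟩
  obtain ⟨K, hK⟩ := cay_lip hS h h'
  obtain ⟨L, hL⟩ := cay_lip hT h' h
  refine ⟨Equiv.refl _, (K + L + 1 : ℕ), by exact_mod_cast Nat.le_add_left 1 _, fun x y => ⟨?_, ?_⟩⟩
  · rw [inv_mul_le_iff₀ (by positivity)]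
    exact_mod_cast (hL x y).trans (Nat.mul_le_mul_right _ (by omega))
  · exact_mod_cast (hK x y).trans (Nat.mul_le_mul_right _ (by omega))

end

end Pool.Agent.Results.MP_40378c_al.Full
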